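import Mathlib

/-!
Digit sequences in `ℤ^ℕ` with the lexicographic order, and the strictly increasing map
`G : ℤ^ℕ → (0,1)` used for the construction of an antichain of maximal Hausdorff measure.
-/

namespace R814.AC

open Filter Topology Finset

noncomputable def dl (k : ℕ) : ℝ := (1 / 4) ^ (k + 2)

theorem dl_pos (k : ℕ) : 0 < dl k := by unfold dl; positivity

theorem dl_le (k : ℕ) : dl k ≤ 1 / 16 := by
  unfold dl
  rw [pow_add]
  have : ((1 : ℝ) / 4) ^ k ≤ 1 := pow_le_one₀ (by norm_num) (by norm_num)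
  nlinarith

/-- the distribution function of the `k`-th letter -/
noncomputable def F (k : ℕ) (a : ℤ) : ℝ :=
  if a ≤ 1 then dl k / (2 - a) else if a = 2 then 1 / 2 else 1 - dl k / (a - 2)

theorem F_le_one {k : ℕ} {a : ℤ} (h : a ≤ 1) : F k a = dl k / (2 - a) := by
  unfold F; rw [if_pos h]

theorem F_one (k : ℕ) : F k 1 = dl k := by
  rw [F_le_one le_rfl]; norm_num

theorem F_two (k : ℕ) : F k 2 = 1 / 2 := by
  unfold F; norm_num

theorem F_ge {k : ℕ} {a : ℤ} (h : 3 ≤ a) : F k a = 1 - dl k / (a - 2) := by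
  unfold F; rw [if_neg (by omega), if_neg (by omega)]

theorem F_three (k : ℕ) : F k 3 = 1 - dl k := by
  rw [F_ge le_rfl]; norm_num

theorem F_lt_succ (k : ℕ) (a : ℤ) : F k a < F k (a + 1) := by
  have h1 := dl_pos k
  have h2 := dl_le k
  rcases lt_or_ge a 1 with h | h
  · rw [F_le_one (by omega : a ≤ 1), F_le_one (by omega : a + 1 ≤ 1)]
    have h3 : (a : ℝ) ≤ 0 := by exact_mod_cast (by omega : a ≤ 0)
    push_cast
    apply div_lt_div_of_pos_left h1 (by linarith) (by linarith)
  · rcases eq_or_lt_of_le h with h | h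
    · rw [← h, F_one, (by norm_num : (1 : ℤ) + 1 = 2), F_two]; linarith
    · rcases eq_or_lt_of_le (by omega : 2 ≤ a) with h' | h'
      · rw [← h', (by norm_num : (2 : ℤ) + 1 = 3), F_two, F_three]; linarith
      · rw [F_ge (by omega : 3 ≤ a), F_ge (by omega : 3 ≤ a + 1)]
        have h3 : (3 : ℝ) ≤ a := by exact_mod_cast (by omega : 3 ≤ a)
        push_cast
        have : dl k / (a + 1 - 2) < dl k / (a - 2) :=
          div_lt_div_of_pos_left h1 (by linarith) (by linarith)
        linarith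

theorem F_strictMono (k : ℕ) : StrictMono (F k) := strictMono_int_of_lt_succ (F_lt_succ k)

theorem F_pos (k : ℕ) (a : ℤ) : 0 < F k a := by
  have h1 := dl_pos k
  rcases le_or_gt a 1 with h | h
  · rw [F_le_one h]
    have h3 : (a : ℝ) ≤ 1 := by exact_mod_cast h
    apply div_pos h1; linarith
  · have := F_strictMono k h
    rw [F_one] at this; linarith

theorem F_lt_one (k : ℕ) (a : ℤ) : F k a < 1 := by
  have h1 := dl_pos k
  rcases le_or_gt 3 a with h | h
  · rw [F_ge h]
    have h3 : (3 : ℝ) ≤ a := by exact_mod_cast h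
    have : 0 < dl k / ((a : ℝ) - 2) := by apply div_pos h1; linarith
    linarith
  · have := F_strictMono k h
    rw [F_three] at this; linarith

theorem exists_digit (k : ℕ) {r : ℝ} (h0 : 0 < r) (h1 : r < 1) :
    ∃ a : ℤ, F k a ≤ r ∧ r < F k (a + 1) := by
  have hd := dl_pos k
  -- some `a` below
  have hlow : ∃ a : ℤ, F k a ≤ r := by
    obtain ⟨N, hN⟩ := exists_nat_gt (dl k / r)
    refine ⟨-(N : ℤ), ?_⟩
    rw [F_le_one (by omega)]
    push_cast
    have hN0 : (0 : ℝ) ≤ N := Nat.cast_nonneg N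
    rw [div_le_iff₀ (by linarith)]
    rw [div_lt_iff₀ h0] at hN
    nlinarith
  have hhigh : ∃ b : ℤ, r < F k b := by
    obtain ⟨N, hN⟩ := exists_nat_gt (dl k / (1 - r))
    refine ⟨(N : ℤ) + 3, ?_⟩
    rw [F_ge (by omega)]
    push_cast
    have h2 : 0 < 1 - r := by linarith
    rw [div_lt_iff₀ h2] at hN
    have hN0 : (0 : ℝ) ≤ N := Nat.cast_nonneg N
    have h3 : dl k / ((N : ℝ) + 3 - 2) < 1 - r := by
      rw [div_lt_iff₀ (by linarith)]
      nlinarith
    linarith
  obtain ⟨b, hb⟩ := hhigh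
  obtain ⟨a, ha1, ha2⟩ := Int.exists_greatest_of_bdd (P := fun a => F k a ≤ r)
    ⟨b, fun z hz => by
      by_contra hlt
      push Not at hlt
      have := F_strictMono k hlt
      linarith⟩ hlow
  refine ⟨a, ha1, ?_⟩
  by_contra hcon
  push Not at hcon
  have := ha2 _ hcon
  omega

/-- the weight of the letter `a` at level `k` -/
noncomputable def w (k : ℕ) (a : ℤ) : ℝ := F k (a + 1) - F k a

theorem w_pos (k : ℕ) (a : ℤ) : 0 < w k a := sub_pos.2 (F_lt_succ k a)

theorem w_one (k : ℕ) : w k 1 = 1 / 2 - dl k := by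
  unfold w; rw [(by norm_num : (1 : ℤ) + 1 = 2), F_one, F_two]

theorem w_two (k : ℕ) : w k 2 = 1 / 2 - dl k := by
  unfold w; rw [(by norm_num : (2 : ℤ) + 1 = 3), F_three, F_two]; ring

theorem w_typ {k : ℕ} {a : ℤ} (h : a = 1 ∨ a = 2) : 1 / 4 ≤ w k a := by
  have := dl_le k
  rcases h with h | h
  · rw [h, w_one]; linarith
  · rw [h, w_two]; linarith

theorem w_neg {k : ℕ} {a : ℤ} (h : a ≤ 0) : w k a ≤ dl k := by
  unfold w
  have h1 := F_pos k a
  have h2 : F k (a + 1) ≤ F k 1 := (F_strictMono k).monotone (by omega)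
  rw [F_one] at h2
  linarith

theorem w_le (k : ℕ) (a : ℤ) : w k a ≤ 1 / 2 := by
  have hd := dl_pos k
  have hd2 := dl_le k
  rcases le_or_gt a 0 with h | h
  · have := w_neg (k := k) h; linarith
  · rcases eq_or_lt_of_le (by omega : 1 ≤ a) with h1 | h1
    · rw [← h1, w_one]; linarith
    · rcases eq_or_lt_of_le (by omega : 2 ≤ a) with h2 | h2
      · rw [← h2, w_two]; linarith
      · unfold w
        have h3 := F_lt_one k (a + 1)
        have h4 : F k 3 ≤ F k a := (F_strictMono k).monotone (by omega)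
        rw [F_three] at h4
        linarith

/-- the weight of a prefix -/
noncomputable def W (k : ℕ) (u : ℕ → ℤ) : ℝ := ∏ i ∈ range k, w i (u i)

/-- the left endpoint of a prefix interval -/
noncomputable def L (k : ℕ) (u : ℕ → ℤ) : ℝ := ∑ l ∈ range k, W l u * F l (u l)

theorem W_zero (u : ℕ → ℤ) : W 0 u = 1 := by simp [W]
theorem L_zero (u : ℕ → ℤ) : L 0 u = 0 := by simp [L]
theorem W_succ (k : ℕ) (u : ℕ → ℤ) : W (k + 1) u = W k u * w k (u k) := by
  simp [W, prod_range_succ]
theorem L_succ (k : ℕ) (u : ℕ → ℤ) : L (k + 1) u = L k u + W k u * F k (u k) := by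
  simp [L, sum_range_succ]

theorem W_pos (k : ℕ) (u : ℕ → ℤ) : 0 < W k u := prod_pos fun i _ => w_pos i (u i)

theorem W_le (k : ℕ) (u : ℕ → ℤ) : W k u ≤ (1 / 2) ^ k := by
  induction k with
  | zero => simp [W_zero]
  | succ k ih =>
    rw [W_succ, pow_succ]
    exact mul_le_mul ih (w_le _ _) (w_pos _ _).le (by positivity)

theorem W_le_one (k : ℕ) (u : ℕ → ℤ) : W k u ≤ 1 :=
  (W_le k u).trans (pow_le_one₀ (by norm_num) (by norm_num))

theorem LW_succ (k : ℕ) (u : ℕ → ℤ) :
    L (k + 1) u + W (k + 1) u = L k u + W k u * F k (u k + 1) := by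
  rw [L_succ, W_succ]; unfold w; ring

theorem L_strictMono (u : ℕ → ℤ) : StrictMono fun k => L k u := by
  refine strictMono_nat_of_lt_succ fun k => ?_
  rw [L_succ]
  have := mul_pos (W_pos k u) (F_pos k (u k))
  linarith

theorem LW_strictAnti (u : ℕ → ℤ) : StrictAnti fun k => L k u + W k u := by
  refine strictAnti_nat_of_succ_lt fun k => ?_
  rw [LW_succ]
  have := mul_lt_mul_of_pos_left (F_lt_one k (u k + 1)) (W_pos k u)
  linarith

theorem L_lt_LW (u : ℕ → ℤ) (j k : ℕ) : L j u < L k u + W k u := by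
  rcases le_total j k with h | h
  · have h1 : L j u ≤ L k u := (L_strictMono u).monotone h
    have := W_pos k u
    linarith
  · have h1 : L j u + W j u ≤ L k u + W k u := (LW_strictAnti u).antitone h
    have := W_pos j u
    linarith

noncomputable def G (u : ℕ → ℤ) : ℝ := ⨆ k, L k u

theorem L_bdd (u : ℕ → ℤ) : BddAbove (Set.range fun k => L k u) :=
  ⟨1, by rintro _ ⟨k, rfl⟩; have := L_lt_LW u k 0; rw [L_zero, W_zero] at this; simpa using this.le⟩

theorem L_lt_G (k : ℕ) (u : ℕ → ℤ) : L k u < G u :=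
  lt_of_lt_of_le (L_strictMono u (Nat.lt_succ_self k)) (le_ciSup (L_bdd u) (k + 1))

theorem G_lt (k : ℕ) (u : ℕ → ℤ) : G u < L k u + W k u :=
  lt_of_le_of_lt (ciSup_le fun j => (L_lt_LW u j (k + 1)).le) (LW_strictAnti u (Nat.lt_succ_self k))

theorem G_pos (u : ℕ → ℤ) : 0 < G u := by have := L_lt_G 0 u; rwa [L_zero] at this
theorem G_lt_one (u : ℕ → ℤ) : G u < 1 := by
  have := G_lt 0 u; rw [L_zero, W_zero] at this; linarith

theorem W_congr {k : ℕ} {u v : ℕ → ℤ} (h : ∀ i < k, u i = v i) : W k u = W k v := by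
  unfold W
  exact prod_congr rfl fun i hi => by rw [h i (mem_range.1 hi)]

theorem L_congr {k : ℕ} {u v : ℕ → ℤ} (h : ∀ i < k, u i = v i) : L k u = L k v := by
  unfold L
  refine sum_congr rfl fun i hi => ?_
  have hi' := mem_range.1 hi
  rw [h i hi', W_congr fun j hj => h j (hj.trans hi')]

theorem compare {k : ℕ} {u v : ℕ → ℤ} (h : ∀ i < k, u i = v i) (hk : u k < v k) :
    L (k + 1) u + W (k + 1) u ≤ L (k + 1) v := by
  rw [LW_succ, L_succ, L_congr h, W_congr h]
  have : F k (u k + 1) ≤ F k (v k) := (F_strictMono k).monotone (by omega)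
  have := mul_le_mul_of_nonneg_left this (W_pos k v).le
  linarith

noncomputable def gap (k : ℕ) (u : ℕ → ℤ) : ℝ :=
  W (k + 1) u * min (F (k + 1) (u (k + 1))) (1 - F (k + 1) (u (k + 1) + 1))

theorem gap_pos (k : ℕ) (u : ℕ → ℤ) : 0 < gap k u := by
  unfold gap
  refine mul_pos (W_pos _ _) (lt_min (F_pos _ _) ?_)
  have := F_lt_one (k + 1) (u (k + 1) + 1)
  linarith

theorem lt_of_first {k : ℕ} {u v : ℕ → ℤ} (h : ∀ i < k, u i = v i) (hk : u k < v k) :
    gap k u ≤ G v - G u ∧ gap k v ≤ G v - G u := by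
  have h1 := compare h hk
  have h2 := L_lt_G (k + 2) v
  have h3 := G_lt (k + 2) u
  rw [LW_succ] at h3
  rw [L_succ] at h2
  have h4 : gap k u ≤ W (k + 1) u * (1 - F (k + 1) (u (k + 1) + 1)) :=
    mul_le_mul_of_nonneg_left (min_le_right _ _) (W_pos _ _).le
  have h5 : gap k v ≤ W (k + 1) v * (F (k + 1) (v (k + 1))) :=
    mul_le_mul_of_nonneg_left (min_le_left _ _) (W_pos _ _).le
  have h6 : 0 < W (k + 1) v * (F (k + 1) (v (k + 1))) := mul_pos (W_pos _ _) (F_pos _ _)
  have h7 : 0 < W (k + 1) u * (1 - F (k + 1) (u (k + 1) + 1)) := by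
    refine mul_pos (W_pos _ _) ?_
    have := F_lt_one (k + 1) (u (k + 1) + 1)
    linarith
  constructor <;> nlinarith

theorem G_lt_of_first {k : ℕ} {u v : ℕ → ℤ} (h : ∀ i < k, u i = v i) (hk : u k < v k) :
    G u < G v := by
  have := (lt_of_first h hk).1
  have := gap_pos k u
  linarith

theorem gap_le {k : ℕ} {u v : ℕ → ℤ} (h : ∀ i < k, u i = v i) (hk : u k ≠ v k) :
    gap k u ≤ |G v - G u| := by
  rcases lt_or_gt_of_ne hk with h1 | h1
  · exact (lt_of_first h h1).1.trans (le_abs_self _)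
  · have := (lt_of_first (fun i hi => (h i hi).symm) h1).2
    rw [abs_sub_comm]
    exact this.trans (le_abs_self _)

theorem diff_le {k : ℕ} {u v : ℕ → ℤ} (h : ∀ i < k, u i = v i) : |G v - G u| ≤ W k u := by
  have h1 := L_lt_G k u
  have h2 := G_lt k u
  have h3 := L_lt_G k v
  have h4 := G_lt k v
  rw [← L_congr h] at h3 h4
  rw [← W_congr h] at h4
  rw [abs_le]; constructor <;> linarith

theorem G_injective : Function.Injective G := by
  intro u v huv
  by_contra hne
  have hex : ∃ k, u k ≠ v k := by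
    by_contra hcon; push Not at hcon; exact hne (funext hcon)
  classical
  have h1 : ∀ i < Nat.find hex, u i = v i := fun i hi => not_not.1 (Nat.find_min hex hi)
  have h2 := gap_le h1 (Nat.find_spec hex)
  rw [huv] at h2
  have := gap_pos (Nat.find hex) u
  simp at h2
  linarith

end R814.AC
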