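import Pool.Agent.R814.AC.Full

/-!
The dependent coordinate has zero derivative at typical points, and the antichain property.
-/

namespace R814.AC

open Filter Topology Finset

theorem eq_of_le {ι : Type*} [Fintype ι] {u v : ι → ℕ → ℤ} (hu : ∀ k, ∑ i, u i k = 0)
    (hv : ∀ k, ∑ i, v i k = 0) (h : ∀ i, G (u i) ≤ G (v i)) : u = v := by
  classical
  by_contra hne
  have hex : ∃ k, ∃ i, u i k ≠ v i k := by
    by_contra hcon
    push Not at hcon
    exact hne (funext fun i => funext fun k => hcon k i)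
  have h1 := Nat.find_spec hex
  have h2 : ∀ j < Nat.find hex, ∀ i, u i j = v i j := by
    intro j hj
    have := Nat.find_min hex hj
    push Not at this
    exact this
  set k := Nat.find hex
  have h3 : ∀ i ∈ (univ : Finset ι), u i k ≤ v i k := by
    intro i _
    by_contra hlt
    push Not at hlt
    have := G_lt_of_first (fun j hj => (h2 j hj i).symm) hlt
    exact absurd (h i) (not_le.2 this)
  have h4 := (Finset.sum_eq_sum_iff_of_le h3).1 (by rw [hu, hv])
  obtain ⟨i, hi⟩ := h1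
  exact hi (h4 i (mem_univ i))

variable {m : ℕ}

theorem dep_congr {u v : Fin (m + 1) → ℕ → ℤ} {j : Fin (m + 1)} {k : ℕ}
    (hu : ∑ i, u i k = 0) (hv : ∑ i, v i k = 0) (h : ∀ i ≠ j, v i k = u i k) : v j k = u j k := by
  rw [Fin.sum_univ_succAbove _ j] at hu hv
  have : ∑ i : Fin m, v (j.succAbove i) k = ∑ i : Fin m, u (j.succAbove i) k :=
    Finset.sum_congr rfl fun i _ => h _ (Fin.succAbove_ne j i)
  linarith

theorem dl_anti {k l : ℕ} (h : k ≤ l) : dl l ≤ dl k := by
  unfold dl
  exact pow_le_pow_of_le_one (by norm_num) (by norm_num) (by omega)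

theorem flat (hm : 1 ≤ m) {u : Fin (m + 1) → ℕ → ℤ} {j : Fin (m + 1)}
    (hu : ∀ k, ∑ i, u i k = 0) (ht : ∀ i ≠ j, typ (u i)) {ε : ℝ} (hε : 0 < ε) :
    ∃ ρ > 0, ∀ v : Fin (m + 1) → ℕ → ℤ, (∀ k, ∑ i, v i k = 0) →
      (∀ i ≠ j, |G (v i) - G (u i)| < ρ) →
      ∃ i ≠ j, |G (v j) - G (u j)| ≤ ε * |G (v i) - G (u i)| := by
  classical
  have : Nontrivial (Fin (m + 1)) := Fin.nontrivial_iff_two_le.2 (by omega)
  have h0 : ∀ᶠ k in atTop, ∀ i : Fin (m + 1), i ≠ j → (u i k = 1 ∨ u i k = 2) := by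
    rw [eventually_all]
    intro i
    by_cases hi : i = j
    · exact Eventually.of_forall fun k h => absurd hi h
    · exact (ht i hi).mono fun k hk _ => hk
  obtain ⟨K, hK⟩ := eventually_atTop.1 h0
  -- the dependent coordinate is nonpositive
  have hneg : ∀ k ≥ K, u j k ≤ 0 := by
    intro k hk
    have h1 := hu k
    rw [Fin.sum_univ_succAbove _ j] at h1
    have h2 : 0 ≤ ∑ i : Fin m, u (j.succAbove i) k := by
      apply Finset.sum_nonneg
      intro i _
      rcases hK k hk _ (Fin.succAbove_ne j i) with h | h <;> omega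
    linarith
  have hWj : ∀ d, W (K + d + 1) (u j) ≤ 1 / 16 * (1 / 64) ^ d := by
    intro d
    induction d with
    | zero =>
      rw [add_zero, W_succ, pow_zero, mul_one]
      have h1 := w_neg (k := K) (hneg K le_rfl)
      have h2 := dl_le K
      have h3 := W_le_one K (u j)
      have h4 := W_pos K (u j)
      have h5 := w_pos K (u j K)
      nlinarith
    | succ d ih =>
      rw [show K + (d + 1) + 1 = (K + d + 1) + 1 by ring, W_succ, pow_succ, ← mul_assoc]
      have h1 := w_neg (k := K + d + 1) (hneg (K + d + 1) (by omega))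
      have h2 : dl (K + d + 1) ≤ 1 / 64 := by
        refine (dl_anti (by omega : 1 ≤ K + d + 1)).trans ?_
        unfold dl; norm_num
      exact mul_le_mul ih (h1.trans h2) (w_pos _ _).le (by positivity)
  obtain ⟨i0, hi0⟩ := Finite.exists_min fun i : Fin (m + 1) => W K (u i)
  set c := W K (u i0) with hc
  have hcpos : 0 < c := W_pos _ _
  have hWi : ∀ i ≠ j, ∀ d, c * (1 / 4) ^ d ≤ W (K + d) (u i) := by
    intro i hi d
    induction d with
    | zero => simpa using hi0 i
    | succ d ih =>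
      rw [show K + (d + 1) = (K + d) + 1 by ring, W_succ, pow_succ, ← mul_assoc]
      exact mul_le_mul ih (w_typ (hK _ (by omega) i hi)) (by norm_num) (W_pos _ _).le
  have hgap : ∀ i ≠ j, ∀ d, c * (1 / 4) ^ (d + 2) * (1 / 4) ^ (K + d + 4) ≤
      gap (K + d + 1) (u i) := by
    intro i hi d
    unfold gap
    have h1 : c * (1 / 4) ^ (d + 2) ≤ W (K + d + 1 + 1) (u i) := by
      have := hWi i hi (d + 2)
      rwa [show K + (d + 2) = K + d + 1 + 1 by ring] at this
    have h2 : (1 / 4 : ℝ) ^ (K + d + 4) ≤ min (F (K + d + 1 + 1) (u i (K + d + 1 + 1)))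
        (1 - F (K + d + 1 + 1) (u i (K + d + 1 + 1) + 1)) := by
      have h3 : (1 / 4 : ℝ) ^ (K + d + 4) = dl (K + d + 1 + 1) := by
        unfold dl; congr 1
      rw [h3]
      have h4 := hK (K + d + 1 + 1) (by omega) i hi
      apply le_min
      · rw [← F_one (K + d + 1 + 1)]
        apply (F_strictMono _).monotone
        rcases h4 with h | h <;> omega
      · have h5 : F (K + d + 1 + 1) (u i (K + d + 1 + 1) + 1) ≤ F (K + d + 1 + 1) 3 := by
          apply (F_strictMono _).monotone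
          rcases h4 with h | h <;> omega
        rw [F_three] at h5
        linarith
    exact mul_le_mul h1 h2 (by positivity) (W_pos _ _).le
  obtain ⟨d0, hd0⟩ := exists_pow_lt_of_lt_one
    (show (0 : ℝ) < 16 * (ε * c * (1 / 4) ^ (K + 6)) by positivity)
    (show (1 / 4 : ℝ) < 1 by norm_num)
  obtain ⟨p0, hp0⟩ := Finite.exists_min fun p : Fin (K + d0 + 1) × Fin (m + 1) =>
    gap p.1 (u p.2)
  refine ⟨gap p0.1 (u p0.2), gap_pos _ _, fun v hv hclose => ?_⟩
  by_cases hall : ∀ k, ∀ i ≠ j, v i k = u i k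
  · obtain ⟨i, hi⟩ := exists_ne j
    refine ⟨i, hi, ?_⟩
    have h1 : v j = u j := funext fun k => dep_congr (hu k) (hv k) (hall k)
    rw [h1, sub_self, abs_zero]
    positivity
  · push Not at hall
    have h1 := Nat.find_spec hall
    have h2 : ∀ l < Nat.find hall, ∀ i ≠ j, v i l = u i l := by
      intro l hl
      have := Nat.find_min hall hl
      push Not at this
      exact this
    set k := Nat.find hall
    obtain ⟨i, hi, hik⟩ := h1
    have h3 : gap k (u i) ≤ |G (v i) - G (u i)| :=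
      gap_le (fun l hl => (h2 l hl i hi).symm) hik.symm
    have h4 : K + d0 + 1 ≤ k := by
      by_contra hlt
      push Not at hlt
      have h5 := hp0 (⟨k, hlt⟩, i)
      have h6 := hclose i hi
      simp only at h5
      linarith
    obtain ⟨d, hd⟩ : ∃ d, k = K + d + 1 := ⟨k - K - 1, by omega⟩
    refine ⟨i, hi, ?_⟩
    have h5 : |G (v j) - G (u j)| ≤ W k (u j) :=
      diff_le fun l hl => (dep_congr (hu l) (hv l) (h2 l hl)).symm
    rw [hd] at h5 h3
    have h6 := hWj d
    have h7 := hgap i hi d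
    have h8 : (1 / 4 : ℝ) ^ d ≤ (1 / 4) ^ d0 :=
      pow_le_pow_of_le_one (by norm_num) (by norm_num) (by omega)
    have h9 : (1 / 16 : ℝ) * (1 / 64) ^ d ≤
        ε * (c * (1 / 4) ^ (d + 2) * (1 / 4) ^ (K + d + 4)) := by
      have h10 : (1 / 64 : ℝ) ^ d = (1 / 16) ^ d * (1 / 4) ^ d := by
        rw [← mul_pow]; norm_num
      have h11 : (c * (1 / 4) ^ (d + 2) * (1 / 4) ^ (K + d + 4) : ℝ) =
          (1 / 16) ^ d * (c * (1 / 4) ^ (K + 6)) := by
        have : (1 / 16 : ℝ) ^ d = (1 / 4) ^ d * (1 / 4) ^ d := by rw [← mul_pow]; norm_num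
        rw [this]; ring
      rw [h10, h11]
      have h12 : (1 / 4 : ℝ) ^ d ≤ 16 * (ε * c * (1 / 4) ^ (K + 6)) := h8.trans hd0.le
      have h13 : (0 : ℝ) < (1 / 16) ^ d := by positivity
      have h14 := mul_le_mul_of_nonneg_left h12 h13.le
      nlinarith
    calc |G (v j) - G (u j)| ≤ W (K + d + 1) (u j) := h5
      _ ≤ 1 / 16 * (1 / 64) ^ d := h6
      _ ≤ ε * (c * (1 / 4) ^ (d + 2) * (1 / 4) ^ (K + d + 4)) := h9
      _ ≤ ε * gap (K + d + 1) (u i) := mul_le_mul_of_nonneg_left h7 hε.le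
      _ ≤ ε * |G (v i) - G (u i)| := mul_le_mul_of_nonneg_left h3 hε.le

end R814.AC
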