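import Pool.Agent.R814.AC.Dig

/-!
Almost every point of `(0,1)` is of the form `G u` with `u k ∈ {1,2}` for all large `k`.
-/

namespace R814.AC

open Filter Topology Finset MeasureTheory

def typ (u : ℕ → ℤ) : Prop := ∀ᶠ k in atTop, u k = 1 ∨ u k = 2

def J (k : ℕ) (u : ℕ → ℤ) : Set ℝ := Set.Ioo (L k u) (L k u + W k u)

theorem J_congr {k : ℕ} {u v : ℕ → ℤ} (h : ∀ i < k, u i = v i) : J k u = J k v := by
  unfold J; rw [L_congr h, W_congr h]

theorem J_disjoint_aux {k i : ℕ} {u v : ℕ → ℤ} (hik : i < k) (h : ∀ j < i, u j = v j)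
    (hi : u i < v i) : Disjoint (J k u) (J k v) := by
  have h1 := compare h hi
  have h2 : L k u + W k u ≤ L (i + 1) u + W (i + 1) u := (LW_strictAnti u).antitone hik
  have h3 : L (i + 1) v ≤ L k v := (L_strictMono v).monotone hik
  unfold J
  rw [Set.disjoint_left]
  intro x hx hx'
  have := hx.2
  have := hx'.1
  linarith

theorem J_disjoint {k : ℕ} {u v : ℕ → ℤ} (h : ∃ i < k, u i ≠ v i) :
    Disjoint (J k u) (J k v) := by
  classical
  have h1 := Nat.find_spec h
  have h2 : ∀ j < Nat.find h, u j = v j := by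
    intro j hj
    have := Nat.find_min h hj
    push Not at this
    exact this (hj.trans h1.1)
  rcases lt_or_gt_of_ne h1.2 with h3 | h3
  · exact J_disjoint_aux h1.1 h2 h3
  · exact (J_disjoint_aux h1.1 (fun j hj => (h2 j hj).symm) h3).symm

/-- extension of a finite prefix by zeros -/
def ext (k : ℕ) (s : Fin k → ℤ) : ℕ → ℤ := fun i => if h : i < k then s ⟨i, h⟩ else 0

theorem ext_restrict (k : ℕ) (u : ℕ → ℤ) : ∀ i < k, u i = ext k (fun j => u j) i := by
  intro i hi; simp [ext, hi]

theorem ext_ne {k : ℕ} {s t : Fin k → ℤ} (h : s ≠ t) : ∃ i < k, ext k s i ≠ ext k t i := by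
  obtain ⟨i, hi⟩ := Function.ne_iff.1 h
  exact ⟨i, i.2, by simpa [ext] using hi⟩

/-- the countable set of endpoints -/
def NN : Set ℝ := ⋃ k : ℕ, Set.range fun s : Fin k → ℤ => L k (ext k s)

theorem NN_countable : NN.Countable :=
  Set.countable_iUnion fun _ => Set.countable_range _

theorem mem_NN (k : ℕ) (u : ℕ → ℤ) : L k u ∈ NN :=
  Set.mem_iUnion.2 ⟨k, fun j => u j, (L_congr (ext_restrict k u)).symm⟩

theorem step {x : ℝ} (hx : x ∉ NN) {k : ℕ} {u : ℕ → ℤ} (h : x ∈ J k u) :
    ∃ a : ℤ, x ∈ J (k + 1) (Function.update u k a) := by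
  have hW := W_pos k u
  have h0 : 0 < (x - L k u) / W k u := div_pos (by have := h.1; linarith) hW
  have h1 : (x - L k u) / W k u < 1 := by
    rw [div_lt_one hW]; have := h.2; linarith
  obtain ⟨a, ha1, ha2⟩ := exists_digit k h0 h1
  refine ⟨a, ?_⟩
  have hag : ∀ i < k, Function.update u k a i = u i := fun i hi =>
    Function.update_of_ne (by omega) _ _
  have hk : Function.update u k a k = a := Function.update_self _ _ _
  have hL : L (k + 1) (Function.update u k a) = L k u + W k u * F k a := by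
    rw [L_succ, L_congr hag, W_congr hag, hk]
  have hR : L (k + 1) (Function.update u k a) + W (k + 1) (Function.update u k a) =
      L k u + W k u * F k (a + 1) := by
    rw [LW_succ, L_congr hag, W_congr hag, hk]
  rw [le_div_iff₀ hW] at ha1
  rw [div_lt_iff₀ hW] at ha2
  unfold J
  rw [hR]
  constructor
  · rw [hL]
    have hne : x ≠ L k u + W k u * F k a := by
      rw [← hL]; intro h'; apply hx; rw [h']; exact mem_NN _ _
    have hle : L k u + W k u * F k a ≤ x := by linarith
    exact lt_of_le_of_ne hle hne.symm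
  · linarith

theorem exists_digits {x : ℝ} (h01 : x ∈ Set.Ioo (0 : ℝ) 1) (hx : x ∉ NN) :
    ∃ u : ℕ → ℤ, ∀ k, x ∈ J k u := by
  classical
  have h0 : x ∈ J 0 (fun _ => 0) := by
    unfold J; rw [L_zero, W_zero]; simpa using h01
  let U : (k : ℕ) → {u : ℕ → ℤ // x ∈ J k u} := fun k =>
    Nat.rec (motive := fun k => {u : ℕ → ℤ // x ∈ J k u}) ⟨_, h0⟩
      (fun k u => ⟨_, (step hx u.2).choose_spec⟩) k
  have hU : ∀ k, (U (k + 1)).1 = Function.update (U k).1 k (step hx (U k).2).choose :=
    fun k => rfl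
  have hstab : ∀ k i, i < k → ∀ d, (U (k + d)).1 i = (U k).1 i := by
    intro k i hi d
    induction d with
    | zero => rfl
    | succ d ih =>
      rw [← add_assoc, hU, Function.update_of_ne (by omega), ih]
  refine ⟨fun k => (U (k + 1)).1 k, fun k => ?_⟩
  have h1 : ∀ i < k, (fun k => (U (k + 1)).1 k) i = (U k).1 i := by
    intro i hi
    have h2 := hstab (i + 1) i (Nat.lt_succ_self i) (k - (i + 1))
    rw [show i + 1 + (k - (i + 1)) = k by omega] at h2
    exact h2.symm
  rw [J_congr h1]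
  exact (U k).2

theorem eq_G {x : ℝ} {u : ℕ → ℤ} (h : ∀ k, x ∈ J k u) : x = G u := by
  have h1 : ∀ k, |x - G u| ≤ (1 / 2) ^ k := by
    intro k
    have h2 := (h k).1
    have h3 := (h k).2
    have h4 := L_lt_G k u
    have h5 := G_lt k u
    have h6 := W_le k u
    rw [abs_le]; constructor <;> linarith
  have h2 : Tendsto (fun k : ℕ => ((1 : ℝ) / 2) ^ k) atTop (𝓝 0) :=
    tendsto_pow_atTop_nhds_zero_of_lt_one (by norm_num) (by norm_num)
  have h3 : |x - G u| ≤ 0 := ge_of_tendsto' h2 h1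
  have h4 := abs_nonpos_iff.1 h3
  linarith

/-- points with an atypical digit at level `k` -/
def B (k : ℕ) : Set ℝ := {x | ∃ u : ℕ → ℤ, x ∈ J (k + 1) u ∧ ¬(u k = 1 ∨ u k = 2)}

def piece (k : ℕ) (u : ℕ → ℤ) : Set ℝ :=
  Set.Ioo (L k u) (L k u + W k u * dl k) ∪
    Set.Ioo (L k u + W k u * (1 - dl k)) (L k u + W k u)

theorem piece_congr {k : ℕ} {u v : ℕ → ℤ} (h : ∀ i < k, u i = v i) : piece k u = piece k v := by
  unfold piece; rw [L_congr h, W_congr h]

theorem piece_vol (k : ℕ) (u : ℕ → ℤ) :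
    volume (piece k u) ≤ ENNReal.ofReal (2 * dl k) * volume (J k u) := by
  unfold piece J
  refine (measure_union_le _ _).trans ?_
  rw [Real.volume_Ioo, Real.volume_Ioo, Real.volume_Ioo]
  have hW := W_pos k u
  have hd := dl_pos k
  rw [← ENNReal.ofReal_mul (by positivity), ← ENNReal.ofReal_add]
  · apply ENNReal.ofReal_le_ofReal
    ring_nf
    exact le_refl _
  · ring_nf; positivity
  · ring_nf; positivity

theorem B_subset (k : ℕ) : B k ⊆ ⋃ s : Fin k → ℤ, piece k (ext k s) := by
  rintro x ⟨u, hx, hu⟩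
  refine Set.mem_iUnion.2 ⟨fun j => u j, ?_⟩
  rw [← piece_congr (ext_restrict k u)]
  have h1 := hx.1
  have h2 := hx.2
  have h3 : x < L k u + W k u := lt_of_lt_of_le h2 (LW_strictAnti u (Nat.lt_succ_self k)).le
  have h4 : L k u < x := lt_of_le_of_lt (L_strictMono u (Nat.lt_succ_self k)).le h1
  rcases lt_or_ge (u k) 1 with h | h
  · left
    refine ⟨h4, ?_⟩
    rw [LW_succ] at h2
    have h5 : F k (u k + 1) ≤ F k 1 := (F_strictMono k).monotone (by omega)
    rw [F_one] at h5
    have := mul_le_mul_of_nonneg_left h5 (W_pos k u).le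
    linarith
  · right
    refine ⟨?_, h3⟩
    rw [L_succ] at h1
    have h5 : F k 3 ≤ F k (u k) := (F_strictMono k).monotone (by
      by_contra hcon; apply hu; omega)
    rw [F_three] at h5
    have := mul_le_mul_of_nonneg_left h5 (W_pos k u).le
    linarith

theorem B_vol (k : ℕ) : volume (B k) ≤ ENNReal.ofReal (2 * dl k) := by
  calc volume (B k) ≤ volume (⋃ s : Fin k → ℤ, piece k (ext k s)) := measure_mono (B_subset k)
    _ ≤ ∑' s : Fin k → ℤ, volume (piece k (ext k s)) := measure_iUnion_le _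
    _ ≤ ∑' s : Fin k → ℤ, ENNReal.ofReal (2 * dl k) * volume (J k (ext k s)) :=
        ENNReal.tsum_le_tsum fun s => piece_vol k _
    _ = ENNReal.ofReal (2 * dl k) * ∑' s : Fin k → ℤ, volume (J k (ext k s)) :=
        ENNReal.tsum_mul_left
    _ = ENNReal.ofReal (2 * dl k) * volume (⋃ s : Fin k → ℤ, J k (ext k s)) := by
        rw [measure_iUnion (fun s t hst => J_disjoint (ext_ne hst)) fun s => measurableSet_Ioo]
    _ ≤ ENNReal.ofReal (2 * dl k) * volume (Set.Ioo (0 : ℝ) 1) := by
        gcongr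
        apply Set.iUnion_subset
        intro s x hx
        have h1 := hx.1
        have h2 := hx.2
        have h3 : L 0 (ext k s) ≤ L k (ext k s) := (L_strictMono _).monotone (Nat.zero_le k)
        have h4 : L k (ext k s) + W k (ext k s) ≤ L 0 (ext k s) + W 0 (ext k s) :=
          (LW_strictAnti _).antitone (Nat.zero_le k)
        rw [L_zero] at h3
        rw [L_zero, W_zero] at h4
        constructor <;> linarith
    _ = ENNReal.ofReal (2 * dl k) := by
        rw [Real.volume_Ioo]; simp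

/-- the set of typical points -/
def D : Set ℝ := {x | ∃ u : ℕ → ℤ, typ u ∧ x = G u}

theorem ae_mem_D : ∀ᵐ x ∂(volume : Measure ℝ), x ∈ Set.Ioo (0 : ℝ) 1 → x ∈ D := by
  have hsum : (∑' k, volume (B k)) ≠ ⊤ := by
    have h1 : Summable fun k : ℕ => 2 * dl k := by
      unfold dl
      apply Summable.mul_left
      simp_rw [pow_add]
      exact (summable_geometric_of_lt_one (by norm_num) (by norm_num)).mul_right _
    have h2 : (∑' k, volume (B k)) ≤ ∑' k, ENNReal.ofReal (2 * dl k) :=
      ENNReal.tsum_le_tsum B_vol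
    refine ne_top_of_le_ne_top ?_ h2
    rw [← ENNReal.ofReal_tsum_of_nonneg (fun k => by have := dl_pos k; positivity) h1]
    exact ENNReal.ofReal_ne_top
  have h1 := ae_eventually_notMem hsum
  have h2 : ∀ᵐ x ∂(volume : Measure ℝ), x ∉ NN := NN_countable.ae_notMem volume
  filter_upwards [h1, h2] with x hx1 hx2 h01
  obtain ⟨u, hu⟩ := exists_digits h01 hx2
  refine ⟨u, ?_, eq_G hu⟩
  filter_upwards [hx1] with k hk
  by_contra hcon
  exact hk ⟨u, hu (k + 1), hcon⟩

end R814.AC
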