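import Pool.Agent.R814.AC.Flat

/-!
Hausdorff measure of the graph pieces.
-/

namespace R814.AC

open Filter Topology MeasureTheory Measure Module
open scoped ENNReal NNReal

abbrev E (k : ℕ) := EuclideanSpace ℝ (Fin k)

def cube (k : ℕ) : Set (E k) := {z | ∀ i, z i ∈ Set.Icc (0 : ℝ) 1}

/-- dropping the `j`-th coordinate -/
noncomputable def q {m : ℕ} (j : Fin (m + 1)) (x : E (m + 1)) : E m :=
  WithLp.toLp 2 fun i => x (j.succAbove i)

theorem q_apply {m : ℕ} (j : Fin (m + 1)) (x : E (m + 1)) (i : Fin m) :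
    q j x i = x (j.succAbove i) := rfl

/-- inserting `c` as the `j`-th coordinate -/
noncomputable def ins {m : ℕ} (j : Fin (m + 1)) (c : ℝ) (z : E m) : E (m + 1) :=
  WithLp.toLp 2 (j.insertNth c fun i => z i)

theorem dist_sq {m : ℕ} (j : Fin (m + 1)) (x y : E (m + 1)) :
    dist x y ^ 2 = dist (q j x) (q j y) ^ 2 + (x j - y j) ^ 2 := by
  rw [EuclideanSpace.dist_eq, EuclideanSpace.dist_eq, Real.sq_sqrt (by positivity),
    Real.sq_sqrt (by positivity), Fin.sum_univ_succAbove _ j, Real.dist_eq, sq_abs, add_comm]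
  rfl

theorem q_lip {m : ℕ} (j : Fin (m + 1)) : LipschitzWith 1 (q j) := by
  apply LipschitzWith.mk_one
  intro x y
  apply le_of_sq_le_sq _ dist_nonneg
  rw [dist_sq j x y]
  have := sq_nonneg (x j - y j)
  linarith

theorem q_ins {m : ℕ} (j : Fin (m + 1)) (c : ℝ) (z : E m) : q j (ins j c z) = z := by
  ext i
  simp [q, ins]

theorem ins_self {m : ℕ} (j : Fin (m + 1)) (c : ℝ) (z : E m) : (ins j c z) j = c := by
  simp [ins]

theorem ins_isometry {m : ℕ} (j : Fin (m + 1)) (c : ℝ) : Isometry (ins (m := m) j c) := by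
  apply Isometry.of_dist_eq
  intro x y
  have h1 := dist_sq j (ins j c x) (ins j c y)
  rw [q_ins, q_ins, ins_self, ins_self, sub_self, zero_pow two_ne_zero, add_zero] at h1
  exact (pow_left_inj₀ dist_nonneg dist_nonneg two_ne_zero).1 h1

theorem coord_le {k : ℕ} (x y : E k) (i : Fin k) : |x i - y i| ≤ dist x y := by
  rw [EuclideanSpace.dist_eq]
  apply Real.le_sqrt_of_sq_le
  rw [sq_abs, ← sq_abs, ← Real.dist_eq]
  exact Finset.single_le_sum (f := fun i => dist (x i) (y i) ^ 2) (fun i _ => by positivity)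
    (Finset.mem_univ i)

end R814.AC
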