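import Pool.Agent.R814.AC.Upper

/-!
Lower bound, additivity over the pieces, and the antichain property.
-/

namespace R814.AC

open Filter Topology MeasureTheory Measure Module
open scoped ENNReal NNReal

variable {m : ℕ}

noncomputable instance haarE (m : ℕ) : IsAddHaarMeasure (μH[(m : ℝ)] : Measure (E m)) := by
  have h : (m : ℝ) = ((finrank ℝ (E m) : ℕ) : ℝ) := by rw [finrank_euclideanSpace_fin]
  rw [h]
  infer_instance

theorem ac_vol (m : ℕ) : (μH[(m : ℝ)] : Measure (E m)) ≪ volume :=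
  absolutelyContinuous_isAddHaarMeasure _ _

theorem D_sub : D ⊆ Set.Ioo 0 1 := by
  rintro x ⟨u, -, rfl⟩
  exact ⟨G_pos u, G_lt_one u⟩

theorem null_one : volume {x : ℝ | x ∈ Set.Icc (0 : ℝ) 1 ∧ x ∉ D} = 0 := by
  have h1 : ∀ᵐ x ∂(volume : Measure ℝ), x ≠ 0 := by
    have := (Set.countable_singleton (0 : ℝ)).ae_notMem volume
    simpa using this
  have h2 : ∀ᵐ x ∂(volume : Measure ℝ), x ≠ 1 := by
    have := (Set.countable_singleton (1 : ℝ)).ae_notMem volume
    simpa using this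
  have h3 : ∀ᵐ x ∂(volume : Measure ℝ), ¬ (x ∈ Set.Icc (0 : ℝ) 1 ∧ x ∉ D) := by
    filter_upwards [ae_mem_D, h1, h2] with x hx h0 h1
    rintro ⟨h01, hD⟩
    exact hD (hx ⟨lt_of_le_of_ne h01.1 (Ne.symm h0), lt_of_le_of_ne h01.2 h1⟩)
  rw [ae_iff] at h3
  simp only [not_not] at h3
  exact h3

theorem null_coord (i : Fin m) : μH[m] {z : E m | z i ∈ Set.Icc (0 : ℝ) 1 ∧ z i ∉ D} = 0 := by
  apply ac_vol m
  have h1 : QuasiMeasurePreserving (Function.eval i) (volume : Measure (Fin m → ℝ)) volume :=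
    quasiMeasurePreserving_eval (fun _ => volume) i
  have h2 := h1.comp (PiLp.volume_preserving_ofLp (Fin m)).quasiMeasurePreserving
  exact h2.preimage_null null_one

theorem cube_sub (j : Fin (m + 1)) : cube m ⊆
    q j '' SS j ∪ ⋃ i, {z : E m | z i ∈ Set.Icc (0 : ℝ) 1 ∧ z i ∉ D} := by
  intro z hz
  by_cases h : ∀ i, z i ∈ D
  · left
    choose w hw hzw using h
    refine ⟨WithLp.toLp 2 fun i => G ((j.insertNth (fun k => -∑ i, w i k) w :
      Fin (m + 1) → ℕ → ℤ) i), ⟨_, ?_, ?_, fun i => rfl⟩, ?_⟩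
    · intro k
      rw [Fin.sum_univ_succAbove _ j]
      simp
    · intro i hi
      obtain ⟨i', rfl⟩ := Fin.exists_succAbove_eq hi
      simpa using hw i'
    · ext i
      rw [q_apply]
      simp [hzw i]
  · right
    push Not at h
    obtain ⟨i, hi⟩ := h
    exact Set.mem_iUnion.2 ⟨i, hz i, hi⟩

theorem le_SS (j : Fin (m + 1)) : μH[m] (cube m) ≤ μH[m] (SS j) := by
  calc μH[m] (cube m) ≤ μH[m] (q j '' SS j ∪ ⋃ i, {z : E m | z i ∈ Set.Icc (0 : ℝ) 1 ∧ z i ∉ D}) :=
        measure_mono (cube_sub j)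
    _ ≤ μH[m] (q j '' SS j) + μH[m] (⋃ i, {z : E m | z i ∈ Set.Icc (0 : ℝ) 1 ∧ z i ∉ D}) :=
        measure_union_le _ _
    _ = μH[m] (q j '' SS j) := by
        rw [measure_iUnion_null fun i => null_coord i, add_zero]
    _ ≤ ((1 : ℝ≥0) : ℝ≥0∞) ^ (m : ℝ) * μH[m] (SS j) :=
        (q_lip j).hausdorffMeasure_image_le (Nat.cast_nonneg m) _
    _ = μH[m] (SS j) := by simp

theorem SS_eq (hm : 1 ≤ m) (j : Fin (m + 1)) : μH[m] (SS j) = μH[m] (cube m) :=
  le_antisymm (SS_le j hm) (le_SS j)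

/-- the antichain -/
def S (m : ℕ) : Set (E (m + 1)) := ⋃ j, SS j

theorem S_anti : IsAntichain (fun x y : E (m + 1) => ∀ i, x i ≤ y i) (S m) := by
  intro x hx y hy hne hle
  obtain ⟨j, u, hu, -, hxu⟩ := Set.mem_iUnion.1 hx
  obtain ⟨l, v, hv, -, hyv⟩ := Set.mem_iUnion.1 hy
  have h := eq_of_le hu hv fun i => by rw [← hxu, ← hyv]; exact hle i
  apply hne
  ext i
  rw [hxu, hyv, h]

theorem S_sub {x : E (m + 1)} (hx : x ∈ S m) (i : Fin (m + 1)) : x i ∈ Set.Icc (0 : ℝ) 1 := by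
  obtain ⟨j, u, -, -, hxu⟩ := Set.mem_iUnion.1 hx
  rw [hxu]
  exact ⟨(G_pos _).le, (G_lt_one _).le⟩

theorem typ_measurable : MeasurableSet {u : ℕ → ℤ | typ u} := by
  have : {u : ℕ → ℤ | typ u} = ⋃ N : ℕ, ⋂ k : ℕ, {u : ℕ → ℤ | N ≤ k → (u k = 1 ∨ u k = 2)} := by
    ext u
    simp [typ, eventually_atTop]
  rw [this]
  refine MeasurableSet.iUnion fun N => MeasurableSet.iInter fun k => ?_
  have h : Measurable fun u : ℕ → ℤ => u k := measurable_pi_apply k
  exact h (MeasurableSet.of_discrete (s := {a : ℤ | N ≤ k → (a = 1 ∨ a = 2)}))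

theorem W_measurable (k : ℕ) : Measurable fun u : ℕ → ℤ => W k u := by
  unfold W
  apply Finset.measurable_prod
  intro i _
  exact (measurable_from_top (f := w i)).comp (measurable_pi_apply i)

theorem L_measurable (k : ℕ) : Measurable fun u : ℕ → ℤ => L k u := by
  unfold L
  apply Finset.measurable_sum
  intro i _
  exact (W_measurable i).mul ((measurable_from_top (f := F i)).comp (measurable_pi_apply i))

theorem G_measurable : Measurable G := Measurable.iSup L_measurable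

theorem D_measurable : MeasurableSet D := by
  have : D = G '' {u | typ u} := by
    ext x
    constructor
    · rintro ⟨u, hu, rfl⟩; exact ⟨u, hu, rfl⟩
    · rintro ⟨u, hu, rfl⟩; exact ⟨u, hu, rfl⟩
  rw [this]
  exact typ_measurable.image_of_measurable_injOn G_measurable G_injective.injOn

def MM (j : Fin (m + 1)) : Set (E (m + 1)) := {x | x j ∉ D ∧ ∀ i, i ≠ j → x i ∈ D}

theorem MM_measurable (j : Fin (m + 1)) : MeasurableSet (MM j) := by
  have h : ∀ i, Measurable fun z : E (m + 1) => z i := by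
    intro i
    have h : Continuous fun z : E (m + 1) => z i := by fun_prop
    exact h.measurable
  have : MM j = {x : E (m + 1) | x j ∉ D} ∩ ⋂ i, {x : E (m + 1) | i ≠ j → x i ∈ D} := by
    ext x; simp [MM]
  rw [this]
  refine MeasurableSet.inter (h j D_measurable.compl) (MeasurableSet.iInter fun i => ?_)
  by_cases hi : i = j
  · simp [hi]
  · have : {x : E (m + 1) | i ≠ j → x i ∈ D} = {x : E (m + 1) | x i ∈ D} := by
      ext x; simp [hi]
    rw [this]
    exact h i D_measurable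

theorem MM_disjoint : Pairwise (Function.onFun Disjoint fun j : Fin (m + 1) => MM j) := by
  intro j l hjl
  rw [Function.onFun, Set.disjoint_left]
  intro x hx hx'
  exact hx.1 (hx'.2 j hjl)

theorem SS_sub_MM (j : Fin (m + 1)) : SS j ⊆ MM j := by
  rintro x ⟨u, hu, ht, hx⟩
  refine ⟨?_, fun i hi => ⟨u i, ht i hi, hx i⟩⟩
  rintro ⟨v, hv, hxv⟩
  have h1 : u j = v := G_injective (by rw [← hx, hxv])
  rw [← h1] at hv
  have h0 : ∀ᶠ k in atTop, ∀ i : Fin (m + 1), i ≠ j → (u i k = 1 ∨ u i k = 2) := by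
    rw [eventually_all]
    intro i
    by_cases hi : i = j
    · exact Eventually.of_forall fun k h => absurd hi h
    · exact (ht i hi).mono fun k hk _ => hk
  obtain ⟨k, hk, hk'⟩ := (h0.and hv).exists
  have h2 := hu k
  rw [Fin.sum_univ_succAbove _ j] at h2
  have h3 : 0 ≤ ∑ i : Fin m, u (j.succAbove i) k := by
    apply Finset.sum_nonneg
    intro i _
    rcases hk _ (Fin.succAbove_ne j i) with h | h <;> omega
  omega

theorem S_measure (hm : 1 ≤ m) : μH[m] (S m) = (m + 1 : ℕ) * μH[m] (cube m) := by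
  have h1 : S m ⊆ ⋃ j, MM j := Set.iUnion_mono fun j => SS_sub_MM j
  have h2 : μH[m] (S m) = (μH[m]).restrict (S m) (⋃ j, MM j) := by
    rw [Measure.restrict_apply (MeasurableSet.iUnion MM_measurable), Set.inter_eq_right.2 h1]
  rw [h2, measure_iUnion MM_disjoint MM_measurable, tsum_fintype]
  have h3 : ∀ j : Fin (m + 1), (μH[m]).restrict (S m) (MM j) = μH[m] (cube m) := by
    intro j
    rw [Measure.restrict_apply (MM_measurable j), ← SS_eq hm j]
    congr 1
    apply Set.Subset.antisymm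
    · rintro x ⟨hx, hx'⟩
      obtain ⟨l, hl⟩ := Set.mem_iUnion.1 hx'
      have hxl := SS_sub_MM l hl
      by_cases hlj : l = j
      · rwa [hlj] at hl
      · exact absurd (hxl.2 j (Ne.symm hlj)) hx.1
    · intro x hx
      exact ⟨SS_sub_MM j hx, Set.mem_iUnion.2 ⟨j, hx⟩⟩
  rw [Finset.sum_congr rfl fun j _ => h3 j]
  simp

/-- a facet of the unit cube -/
def facet (j : Fin (m + 1)) (c : ℝ) : Set (E (m + 1)) :=
  {x | x j = c ∧ ∀ i, x i ∈ Set.Icc (0 : ℝ) 1}

theorem facet_eq (j : Fin (m + 1)) {c : ℝ} (hc : c ∈ Set.Icc (0 : ℝ) 1) :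
    facet j c = ins j c '' cube m := by
  ext x
  constructor
  · rintro ⟨hx, hx'⟩
    refine ⟨q j x, fun i => hx' _, ?_⟩
    ext i
    rcases Fin.eq_self_or_eq_succAbove j i with rfl | ⟨i', rfl⟩
    · rw [ins_self, hx]
    · simp [ins, q_apply]
  · rintro ⟨z, hz, rfl⟩
    refine ⟨ins_self j c z, fun i => ?_⟩
    rcases Fin.eq_self_or_eq_succAbove j i with rfl | ⟨i', rfl⟩
    · rwa [ins_self]
    · have : (ins j c z) (j.succAbove i') = z i' := by simp [ins]
      rw [this]; exact hz i'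

theorem facet_measure (j : Fin (m + 1)) {c : ℝ} (hc : c ∈ Set.Icc (0 : ℝ) 1) :
    μH[m] (facet j c) = μH[m] (cube m) := by
  rw [facet_eq j hc]
  exact (ins_isometry j c).hausdorffMeasure_image (Or.inl (Nat.cast_nonneg m)) _

theorem cube_compact : IsCompact (cube m) := by
  have h : cube m = (EuclideanSpace.equiv (Fin m) ℝ) ⁻¹' (Set.Icc 0 1) := by
    ext z
    simp [cube, Set.mem_Icc, Pi.le_def, forall_and]
  rw [h]
  exact ((EuclideanSpace.equiv (Fin m) ℝ).toHomeomorph.isClosedEmbedding).isCompact_preimage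
    isCompact_Icc

theorem cube_lt_top : μH[m] (cube m) < ⊤ := cube_compact.measure_lt_top

theorem cube_pos : 0 < μH[m] (cube m) := by
  have h1 : IsOpen {z : E m | ∀ i, z i ∈ Set.Ioo (0 : ℝ) 1} := by
    have : {z : E m | ∀ i, z i ∈ Set.Ioo (0 : ℝ) 1} = ⋂ i, {z : E m | z i ∈ Set.Ioo (0 : ℝ) 1} := by
      ext z; simp
    rw [this]
    apply isOpen_iInter_of_finite
    intro i
    have h : Continuous fun z : E m => z i := by fun_prop
    exact isOpen_Ioo.preimage h
  have h2 : {z : E m | ∀ i, z i ∈ Set.Ioo (0 : ℝ) 1}.Nonempty :=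
    ⟨WithLp.toLp 2 fun _ => 1 / 2, fun i => by norm_num⟩
  exact (h1.measure_pos μH[m] h2).trans_le
    (measure_mono fun z hz i => ⟨(hz i).1.le, (hz i).2.le⟩)

end R814.AC
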