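import Pool.Agent.R814.AC.Haus

/-!
Upper bound: the `j`-th piece has Hausdorff measure at most that of the unit cube.
-/

namespace R814.AC

open Filter Topology MeasureTheory Measure Module
open scoped ENNReal NNReal

/-- inverse Lipschitz bound for Hausdorff measures on a set -/
theorem haus_le_of_anti {X Y : Type*} [MetricSpace X] [MetricSpace Y] [MeasurableSpace X]
    [BorelSpace X] [MeasurableSpace Y] [BorelSpace Y] [Nonempty X] {f : X → Y} {A : Set X}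
    {K : ℝ≥0} (h : ∀ x ∈ A, ∀ y ∈ A, dist x y ≤ K * dist (f x) (f y)) {d : ℝ} (hd : 0 ≤ d) :
    μH[d] A ≤ (K : ℝ≥0∞) ^ d * μH[d] (f '' A) := by
  classical
  set g := Function.invFunOn f A with hg
  have h1 : ∀ z ∈ f '' A, g z ∈ A ∧ f (g z) = z := fun z hz =>
    ⟨Function.invFunOn_mem hz, Function.invFunOn_eq hz⟩
  have h2 : LipschitzOnWith K g (f '' A) := by
    apply LipschitzOnWith.of_dist_le_mul
    intro z hz w hw
    have := h _ (h1 z hz).1 _ (h1 w hw).1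
    rwa [(h1 z hz).2, (h1 w hw).2] at this
  have h3 : A ⊆ g '' (f '' A) := by
    intro x hx
    refine ⟨f x, ⟨x, hx, rfl⟩, ?_⟩
    have h4 := h _ (h1 (f x) ⟨x, hx, rfl⟩).1 _ hx
    rw [(h1 (f x) ⟨x, hx, rfl⟩).2, dist_self, mul_zero] at h4
    exact dist_le_zero.1 h4
  exact (measure_mono h3).trans (h2.hausdorffMeasure_image_le hd)

/-- the `j`-th piece -/
def SS {m : ℕ} (j : Fin (m + 1)) : Set (E (m + 1)) :=
  {x | ∃ u : Fin (m + 1) → ℕ → ℤ, (∀ k, ∑ i, u i k = 0) ∧ (∀ i ≠ j, typ (u i)) ∧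
    ∀ i, x i = G (u i)}

variable {m : ℕ} (j : Fin (m + 1))

def SN (ε : ℝ) (N : ℕ) : Set (E (m + 1)) :=
  {x | x ∈ SS j ∧ ∀ y ∈ SS j, dist (q j x) (q j y) < 1 / ((N : ℝ) + 1) →
    |x j - y j| ≤ ε * dist (q j x) (q j y)}

theorem SN_mono (ε : ℝ) : Monotone (SN j ε) := by
  intro N N' h x hx
  refine ⟨hx.1, fun y hy hd => hx.2 y hy (hd.trans_le ?_)⟩
  have h1 : (N : ℝ) ≤ N' := by exact_mod_cast h
  apply one_div_le_one_div_of_le (by positivity)
  linarith

theorem iUnion_SN (hm : 1 ≤ m) {ε : ℝ} (hε : 0 < ε) : ⋃ N, SN j ε N = SS j := by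
  apply Set.Subset.antisymm
  · exact Set.iUnion_subset fun N x hx => hx.1
  · intro x hx
    obtain ⟨u, hu, ht, hxu⟩ := hx
    obtain ⟨ρ, hρ, hflat⟩ := flat hm hu ht hε
    obtain ⟨N, hN⟩ := exists_nat_one_div_lt hρ
    refine Set.mem_iUnion.2 ⟨N, ⟨u, hu, ht, hxu⟩, ?_⟩
    rintro y ⟨v, hv, -, hyv⟩ hd
    have h1 : ∀ i ≠ j, |G (v i) - G (u i)| ≤ dist (q j x) (q j y) := by
      intro i hi
      obtain ⟨i', rfl⟩ := Fin.exists_succAbove_eq hi
      have := coord_le (q j x) (q j y) i'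
      rwa [q_apply, q_apply, hxu, hyv, abs_sub_comm] at this
    obtain ⟨i, hi, h2⟩ := hflat v hv fun i hi => (h1 i hi).trans_lt (hd.trans hN)
    rw [hxu, hyv, abs_sub_comm]
    exact h2.trans (mul_le_mul_of_nonneg_left (h1 i hi) hε.le)

/-- cells of side `1/M` -/
def cell (M : ℝ) (c : Fin m → ℤ) : Set (E m) := {z | ∀ i, ⌊z i * M⌋ = c i}

theorem cell_measurable (M : ℝ) (c : Fin m → ℤ) : MeasurableSet (cell M c) := by
  have : cell M c = ⋂ i, {z : E m | ⌊z i * M⌋ = c i} := by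
    ext z; simp [cell]
  rw [this]
  apply MeasurableSet.iInter
  intro i
  have h : Measurable fun z : E m => ⌊z i * M⌋ := by
    apply Int.measurable_floor.comp
    have : Continuous fun z : E m => z i * M := by fun_prop
    exact this.measurable
  exact h (measurableSet_singleton (c i))

theorem cell_dist {N : ℕ} {c : Fin m → ℤ} {z w : E m}
    (hz : z ∈ cell (((N : ℝ) + 1) * ((m : ℝ) + 1)) c)
    (hw : w ∈ cell (((N : ℝ) + 1) * ((m : ℝ) + 1)) c) : dist z w < 1 / ((N : ℝ) + 1) := by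
  have hM : (0 : ℝ) < ((N : ℝ) + 1) * ((m : ℝ) + 1) := by positivity
  set M := ((N : ℝ) + 1) * ((m : ℝ) + 1) with hMdef
  have h1 : ∀ i, dist (z i) (w i) ^ 2 ≤ (1 / M) ^ 2 := by
    intro i
    have h2 : |z i * M - w i * M| < 1 := Int.abs_sub_lt_one_of_floor_eq_floor ((hz i).trans (hw i).symm)
    rw [← sub_mul, abs_mul, abs_of_pos hM] at h2
    rw [Real.dist_eq]
    apply pow_le_pow_left₀ (abs_nonneg _)
    rw [le_div_iff₀ hM]
    exact h2.le
  have h3 : dist z w ^ 2 < (1 / ((N : ℝ) + 1)) ^ 2 := by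
    rw [EuclideanSpace.dist_eq, Real.sq_sqrt (by positivity)]
    calc ∑ i, dist (z i) (w i) ^ 2 ≤ ∑ _i : Fin m, (1 / M) ^ 2 := Finset.sum_le_sum fun i _ => h1 i
      _ = m * (1 / M) ^ 2 := by simp
      _ < (1 / ((N : ℝ) + 1)) ^ 2 := by
        rw [hMdef, one_div_pow, one_div_pow, mul_pow, mul_one_div, div_lt_div_iff₀ (by positivity) (by positivity)]
        have h4 : (m : ℝ) < ((m : ℝ) + 1) ^ 2 := by nlinarith [(Nat.cast_nonneg m : (0 : ℝ) ≤ m)]
        have h5 : (0 : ℝ) < ((N : ℝ) + 1) ^ 2 := by positivity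
        nlinarith
  exact lt_of_pow_lt_pow_left₀ 2 (by positivity) h3

theorem q_SS_sub : q j '' SS j ⊆ cube m := by
  rintro _ ⟨x, ⟨u, -, -, hx⟩, rfl⟩ i
  rw [q_apply, hx]
  exact ⟨(G_pos _).le, (G_lt_one _).le⟩

theorem SN_le {ε : ℝ} (hε : 0 < ε) (N : ℕ) :
    μH[m] (SN j ε N) ≤ (ENNReal.ofReal (1 + ε)) ^ (m : ℝ) * μH[m] (cube m) := by
  set M := ((N : ℝ) + 1) * ((m : ℝ) + 1) with hMdef
  set A : (Fin m → ℤ) → Set (E (m + 1)) := fun c => SN j ε N ∩ q j ⁻¹' cell M c with hA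
  have h1 : SN j ε N ⊆ ⋃ c, A c := fun x hx =>
    Set.mem_iUnion.2 ⟨fun i => ⌊q j x i * M⌋, hx, fun i => rfl⟩
  have h2 : ∀ c, μH[m] (A c) ≤ (ENNReal.ofReal (1 + ε)) ^ (m : ℝ) * μH[m] (cube m ∩ cell M c) := by
    intro c
    have h3 : ∀ x ∈ A c, ∀ y ∈ A c, dist x y ≤ (Real.toNNReal (1 + ε)) * dist (q j x) (q j y) := by
      intro x hx y hy
      rw [Real.coe_toNNReal _ (by linarith)]
      have h4 := hx.1.2 y hy.1.1 (cell_dist hx.2 hy.2)
      apply le_of_sq_le_sq _ (by positivity)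
      rw [dist_sq j x y, ← sq_abs (x j - y j)]
      have h5 : |x j - y j| ^ 2 ≤ (ε * dist (q j x) (q j y)) ^ 2 :=
        pow_le_pow_left₀ (abs_nonneg _) h4 2
      nlinarith [mul_nonneg hε.le (sq_nonneg (dist (q j x) (q j y)))]
    refine (haus_le_of_anti h3 (Nat.cast_nonneg m)).trans ?_
    apply mul_le_mul_right
    apply measure_mono
    rintro _ ⟨x, hx, rfl⟩
    exact ⟨q_SS_sub j ⟨x, hx.1.1, rfl⟩, hx.2⟩
  have hdisj : Pairwise (Function.onFun Disjoint fun c => cube m ∩ cell M c) := by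
    intro c c' hcc
    rw [Function.onFun, Set.disjoint_left]
    rintro z ⟨-, hz⟩ ⟨-, hz'⟩
    exact hcc (funext fun i => (hz i).symm.trans (hz' i))
  have hcm : MeasurableSet (cube m) := by
    have : cube m = ⋂ i, {z : E m | z i ∈ Set.Icc (0 : ℝ) 1} := by ext z; simp [cube]
    rw [this]
    apply MeasurableSet.iInter
    intro i
    have h : Continuous fun z : E m => z i := by fun_prop
    exact h.measurable measurableSet_Icc
  calc μH[m] (SN j ε N) ≤ μH[m] (⋃ c, A c) := measure_mono h1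
    _ ≤ ∑' c, μH[m] (A c) := measure_iUnion_le _
    _ ≤ ∑' c, (ENNReal.ofReal (1 + ε)) ^ (m : ℝ) * μH[m] (cube m ∩ cell M c) :=
      ENNReal.tsum_le_tsum h2
    _ = (ENNReal.ofReal (1 + ε)) ^ (m : ℝ) * ∑' c, μH[m] (cube m ∩ cell M c) :=
      ENNReal.tsum_mul_left
    _ = (ENNReal.ofReal (1 + ε)) ^ (m : ℝ) * μH[m] (⋃ c, cube m ∩ cell M c) := by
      rw [measure_iUnion hdisj fun c => hcm.inter (cell_measurable M c)]
    _ ≤ (ENNReal.ofReal (1 + ε)) ^ (m : ℝ) * μH[m] (cube m) := by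
      apply mul_le_mul_right
      exact measure_mono (Set.iUnion_subset fun c => Set.inter_subset_left)

theorem SS_le_eps (hm : 1 ≤ m) {ε : ℝ} (hε : 0 < ε) :
    μH[m] (SS j) ≤ (ENNReal.ofReal (1 + ε)) ^ (m : ℝ) * μH[m] (cube m) := by
  rw [← iUnion_SN j hm hε, (SN_mono j ε).measure_iUnion]
  exact iSup_le fun N => SN_le j hε N

theorem SS_le (hm : 1 ≤ m) : μH[m] (SS j) ≤ μH[m] (cube m) := by
  have h1 : Tendsto (fun ε : ℝ => (ENNReal.ofReal (1 + ε)) ^ (m : ℝ) * μH[m] (cube m)) (𝓝[>] 0)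
      (𝓝 ((ENNReal.ofReal (1 + 0)) ^ (m : ℝ) * μH[m] (cube m))) := by
    apply ENNReal.Tendsto.mul_const
    · apply Filter.Tendsto.mono_left _ nhdsWithin_le_nhds
      have h2 : Continuous fun ε : ℝ => (ENNReal.ofReal (1 + ε)) ^ (m : ℝ) := by
        apply ENNReal.continuous_rpow_const.comp
        exact ENNReal.continuous_ofReal.comp (by fun_prop)
      exact h2.tendsto 0
    · left; simp
  rw [add_zero, ENNReal.ofReal_one, ENNReal.one_rpow, one_mul] at h1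
  exact ge_of_tendsto h1 (eventually_nhdsWithin_of_forall fun ε hε => SS_le_eps j hm hε)

end R814.AC
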